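import Pool.Agent.Q96.CF.Main

/-!
# Every claw-free cubic graph is `(1,1,2,3)`-packing colourable

The vertices of a claw-free cubic graph outside its `K₄`-components lie in diamonds and plain
triangles.  Take a maximal set `I` of plain triangles with no edge between two of them.  The
3-packing has one vertex in every triangle of `I`, chosen next to a diamond if possible and
otherwise with distinct neighbouring triangles (Hall); the 2-packing has, in every other plain
triangle, a vertex with a neighbour in `I`, and one centre of every diamond.  The rest has maximum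
degree two.  An exchange argument removes the closed components which enter a triangle of `I` from
a diamond; in every remaining closed component with a diamond the second centre of one diamond goes
to the 3-packing, and the closed components without diamonds are even cycles.
-/

set_option autoImplicit false

namespace Pool.Agent.Results.MP_b5f1b3_co.ClawFreeCubic

open SimpleGraph

/-- `X` is an `s`-packing of `G`: any two distinct vertices of `X` are at distance greater than
`s` (the distance of vertices in different components is infinite). -/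
def IsPacking {V : Type*} (G : SimpleGraph V) (s : ℕ) (X : Set V) : Prop :=
  ∀ u ∈ X, ∀ v ∈ X, u ≠ v → (s : ℕ∞) < G.edist u v

/-- `G` is `S`-packing colourable for the sequence `S = (s₁, …, s_k)`: the vertices can be
partitioned into `X₁, …, X_k` such that `X_i` is an `s_i`-packing. -/
def PackingColourable {V : Type*} (G : SimpleGraph V) (S : List ℕ) : Prop :=
  ∃ c : V → Fin S.length, ∀ i, IsPacking G (S.get i) {v | c v = i}

/-- `G` has no induced subgraph isomorphic to `K_{1,3}`. -/
def ClawFree {V : Type*} (G : SimpleGraph V) : Prop :=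
  ¬ Nonempty (completeBipartiteGraph (Fin 1) (Fin 3) ↪g G)

/-- Every claw-free cubic graph is `(1,1,2,3)`-packing colourable. -/
theorem result {V : Type*} [Fintype V] (G : SimpleGraph V) [DecidableRel G.Adj]
    (hcubic : G.IsRegularOfDegree 3) (hclaw : ClawFree G) :
    PackingColourable G [1, 1, 2, 3] := by
  classical
  have hG : Q96.CF.CC G := by
    refine ⟨fun v => ?_⟩
    have h3 : (G.neighborFinset v).card = 3 := by
      rw [G.card_neighborFinset_eq_degree]; exact hcubic v
    obtain ⟨a, b, c, hab, hac, hbc, hn⟩ := Finset.card_eq_three.1 h3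
    have hn' : ∀ u, G.Adj v u ↔ u = a ∨ u = b ∨ u = c := by
      intro u
      rw [← SimpleGraph.mem_neighborFinset, hn]
      simp
    have ha : G.Adj v a := (hn' a).2 (Or.inl rfl)
    have hb : G.Adj v b := (hn' b).2 (Or.inr (Or.inl rfl))
    have hc : G.Adj v c := (hn' c).2 (Or.inr (Or.inr rfl))
    by_cases h1 : G.Adj a b
    · exact ⟨a, b, c, hab, hac, hbc, hn', h1⟩
    by_cases h2 : G.Adj a c
    · exact ⟨a, c, b, hac, hab, hbc.symm, fun u => by rw [hn' u]; tauto, h2⟩
    by_cases h4 : G.Adj b c
    · exact ⟨b, c, a, hbc, hab.symm, hac.symm, fun u => by rw [hn' u]; tauto, h4⟩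
    exfalso
    apply hclaw
    have h1' : ¬ G.Adj b a := fun h => h1 h.symm
    have h2' : ¬ G.Adj c a := fun h => h2 h.symm
    have h4' : ¬ G.Adj c b := fun h => h4 h.symm
    refine ⟨⟨⟨fun x => Sum.elim (fun _ => v) (![a, b, c]) x, ?_⟩, ?_⟩⟩
    · intro x y hxy
      rcases x with x | x <;> rcases y with y | y
      · rw [Subsingleton.elim x y]
      · exfalso
        fin_cases y <;> simp at hxy
        · exact ha.ne hxy
        · exact hb.ne hxy
        · exact hc.ne hxy
      · exfalso
        fin_cases x <;> simp at hxy
        · exact ha.ne hxy.symm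
        · exact hb.ne hxy.symm
        · exact hc.ne hxy.symm
      · fin_cases x <;> fin_cases y <;> simp at hxy ⊢
        all_goals first | exact hab hxy | exact hab hxy.symm | exact hac hxy |
          exact hac hxy.symm | exact hbc hxy | exact hbc hxy.symm
    · intro x y
      rcases x with x | x <;> rcases y with y | y
      · simp
      · fin_cases y <;> simp [ha, hb, hc]
      · fin_cases x <;> simp [ha.symm, hb.symm, hc.symm]
      · fin_cases x <;> fin_cases y <;> simp [h1, h2, h4, h1', h2', h4']
  obtain ⟨c, h01, h2, h3⟩ := Q96.CF.main hG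
  have walk : ∀ (k : ℕ) (u v : V), ¬ ((k : ℕ∞) < G.edist u v) →
      ∃ p : G.Walk u v, p.length ≤ k := by
    intro k u v h
    rw [not_lt] at h
    have hne : G.edist u v ≠ ⊤ := ne_top_of_le_ne_top (ENat.natCast_ne_top k) h
    obtain ⟨p, hp⟩ := SimpleGraph.exists_walk_of_edist_ne_top hne
    refine ⟨p, ?_⟩
    rw [← hp] at h
    exact_mod_cast h
  have w1 : ∀ u v : V, u ≠ v → (∃ p : G.Walk u v, p.length ≤ 1) → G.Adj u v := by
    rintro u v huv ⟨p, hp⟩
    match p, hp with
    | .nil, _ => exact absurd rfl huv
    | .cons h .nil, _ => exact h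
    | .cons _ (.cons _ q), hp => simp at hp
  have w2 : ∀ u v : V, u ≠ v → (∃ p : G.Walk u v, p.length ≤ 2) →
      G.Adj u v ∨ ∃ w, G.Adj u w ∧ G.Adj w v := by
    rintro u v huv ⟨p, hp⟩
    match p, hp with
    | .nil, _ => exact absurd rfl huv
    | .cons h .nil, _ => exact Or.inl h
    | .cons h (.cons h' .nil), _ => exact Or.inr ⟨_, h, h'⟩
    | .cons _ (.cons _ (.cons _ q)), hp => simp at hp
  have w3 : ∀ u v : V, u ≠ v → (∃ p : G.Walk u v, p.length ≤ 3) → Q96.CF.W3 G u v := by
    rintro u v huv ⟨p, hp⟩
    match p, hp with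
    | .nil, _ => exact absurd rfl huv
    | .cons h .nil, _ => exact Or.inl h
    | .cons h (.cons h' .nil), _ => exact Or.inr (Or.inl ⟨_, h, h'⟩)
    | .cons h (.cons h' (.cons h'' .nil)), _ => exact Or.inr (Or.inr ⟨_, _, h, h', h''⟩)
    | .cons _ (.cons _ (.cons _ (.cons _ q))), hp => simp at hp; omega
  refine ⟨c, fun i u hu v hv huv => ?_⟩
  have hu' : c u = i := hu
  have hv' : c v = i := hv
  by_contra hlt
  have hw := walk _ u v hlt
  have huv' : c u = c v := hu'.trans hv'.symm
  match i, hu', hw with
  | ⟨0, _⟩, hu', hw => exact h01 u v huv huv' (Or.inl hu') (w1 u v huv hw)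
  | ⟨1, _⟩, hu', hw => exact h01 u v huv huv' (Or.inr hu') (w1 u v huv hw)
  | ⟨2, _⟩, hu', hw =>
    rcases w2 u v huv hw with h | h
    · exact (h2 u v huv huv' hu').1 h
    · exact (h2 u v huv huv' hu').2 h
  | ⟨3, _⟩, hu', hw => exact h3 u v huv huv' hu' (w3 u v huv hw)

end Pool.Agent.Results.MP_b5f1b3_co.ClawFreeCubic
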